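import Pool.Agent.H89.MT.Targets

/-! # DIV: logarithmic density of a residue class -/

open MeasureTheory ProbabilityTheory Filter Topology Finset

namespace Pool.Agent.H86.MT

open Pool.Agent.H89.MT

theorem pf_DIV : T_DIV := by
  intro a d N hd
  have hd' : (0 : ℝ) < d := by exact_mod_cast hd
  have ha' : (0 : ℝ) ≤ a := Nat.cast_nonneg a
  have h1 : ∑ n ∈ Icc 1 N with d ∣ n + a, (1 : ℝ) / n ≤
      ∑ n ∈ Icc 1 N with d ∣ n + a, ((a : ℝ) + 1) / d * (((n + a) / d : ℕ) : ℝ)⁻¹ := by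
    apply Finset.sum_le_sum
    intro n hn
    rw [mem_filter, mem_Icc] at hn
    obtain ⟨⟨h1, h2⟩, t, ht⟩ := hn
    have ht0 : 0 < t := by
      rcases Nat.eq_zero_or_pos t with h | h
      · subst h; omega
      · exact h
    have e1 : (n + a) / d = t := by rw [ht]; exact Nat.mul_div_cancel_left t hd
    rw [e1]
    have hn' : (0 : ℝ) < n := by exact_mod_cast h1
    have ht' : (0 : ℝ) < t := by exact_mod_cast ht0
    have hn1 : (1 : ℝ) ≤ n := by exact_mod_cast h1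
    have e2 : (n : ℝ) + a = d * t := by exact_mod_cast ht
    rw [← one_div, div_mul_div_comm, mul_one, div_le_div_iff₀ hn' (by positivity), ← e2]
    nlinarith
  have hinj : Set.InjOn (fun n : ℕ => (n + a) / d)
      ((Icc 1 N).filter (fun n => d ∣ n + a) : Finset ℕ) := by
    intro x hx y hy hxy
    simp only [coe_filter, Set.mem_setOf_eq] at hx hy
    obtain ⟨-, s, hs⟩ := hx
    obtain ⟨-, t, ht⟩ := hy
    simp only [hs, ht, Nat.mul_div_cancel_left _ hd] at hxy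
    subst hxy
    omega
  have h2 : ∑ n ∈ Icc 1 N with d ∣ n + a, ((a : ℝ) + 1) / d * (((n + a) / d : ℕ) : ℝ)⁻¹ ≤
      ∑ t ∈ Icc 1 (N + a), ((a : ℝ) + 1) / d * (t : ℝ)⁻¹ := by
    have e : ∑ n ∈ Icc 1 N with d ∣ n + a, ((a : ℝ) + 1) / d * (((n + a) / d : ℕ) : ℝ)⁻¹ =
        ∑ t ∈ ((Icc 1 N).filter (fun n => d ∣ n + a)).image (fun n : ℕ => (n + a) / d),
          ((a : ℝ) + 1) / d * (t : ℝ)⁻¹ :=
      (Finset.sum_image (f := fun t : ℕ => ((a : ℝ) + 1) / d * (t : ℝ)⁻¹) hinj).symm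
    rw [e]
    apply Finset.sum_le_sum_of_subset_of_nonneg
    · intro t ht
      rw [mem_image] at ht
      obtain ⟨n, hn, rfl⟩ := ht
      rw [mem_filter, mem_Icc] at hn
      obtain ⟨⟨h1, h2⟩, s, hs⟩ := hn
      rw [mem_Icc, hs, Nat.mul_div_cancel_left _ hd]
      have hs0 : 0 < s := by
        rcases Nat.eq_zero_or_pos s with h | h
        · subst h; omega
        · exact h
      refine ⟨hs0, ?_⟩
      have : s ≤ d * s := Nat.le_mul_of_pos_left s hd
      omega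
    · intro t _ _
      positivity
  have h3 : ∑ t ∈ Icc 1 (N + a), (t : ℝ)⁻¹ ≤ 1 + Real.log ((N : ℝ) + a) := by
    have := harmonic_le_one_add_log (N + a)
    rw [harmonic_eq_sum_Icc] at this
    push_cast at this
    exact this
  calc ∑ n ∈ Icc 1 N with d ∣ n + a, (1 : ℝ) / n ≤ _ := h1
    _ ≤ _ := h2
    _ = ((a : ℝ) + 1) / d * ∑ t ∈ Icc 1 (N + a), (t : ℝ)⁻¹ := by rw [Finset.mul_sum]
    _ ≤ ((a : ℝ) + 1) / d * (1 + Real.log ((N : ℝ) + a)) := by
      apply mul_le_mul_of_nonneg_left h3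
      positivity

end Pool.Agent.H86.MT
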