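import Pool.Agent.H89.MT.Targets

/-! # EXP: expectation of a product of values of a random multiplicative function -/

open MeasureTheory ProbabilityTheory Filter Topology Finset

universe u

namespace Pool.Agent.H86.MT

open Pool.Agent.H89.MT

theorem mult_prod (u : ℕ → I1) (hu : IsMult u) {a : ℕ} (ha : a ≠ 0) :
    (u a : ℝ) = ∏ p ∈ a.primeFactors, (u (p ^ (a.factorization p)) : ℝ) := by
  have h := Nat.multiplicative_factorization (fun n => (u n : ℝ)) (by
    intro x y hxy
    rcases Nat.eq_zero_or_pos x with hx | hx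
    · subst hx
      have hy : y = 1 := by simpa using hxy
      subst hy
      simp [hu.1]
    rcases Nat.eq_zero_or_pos y with hy | hy
    · subst hy
      have hx : x = 1 := by simpa using hxy
      subst hx
      simp [hu.1]
    exact hu.2 x y hx hy hxy) hu.1 ha
  simpa [Finsupp.prod] using h

theorem pf_EXP : T_EXP.{u} := by
  classical
  intro Ω _ P _ u hu ι _ _ a ha
  set M : Finset ℕ := univ.biUnion fun i => (a i).primeFactors with hM
  have hMp : ∀ p ∈ M, Nat.Prime p := by
    intro p hp
    rw [hM, mem_biUnion] at hp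
    obtain ⟨i, -, hp⟩ := hp
    exact (Nat.mem_primeFactors.1 hp).1
  set φ : M → Nat.Primes := fun p => ⟨p.1, hMp p.1 p.2⟩ with hφ
  have hφi : Function.Injective φ := by
    intro p q hpq
    have : (p : ℕ) = q := congrArg (fun x : Nat.Primes => (x : ℕ)) hpq
    exact Subtype.ext this
  set X : M → Ω → ℕ → I1 := fun p ω k => u ω ((p : ℕ) ^ (k + 1)) with hX
  have hXind : iIndepFun X P := hu.indep.precomp hφi
  set g : M → (ℕ → I1) → ℝ := fun p x =>
    ∏ i with (p : ℕ) ∣ a i, (x ((a i).factorization p - 1) : ℝ) with hg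
  have hgm : ∀ p, Measurable (g p) := by
    intro p
    rw [hg]
    apply Finset.measurable_prod
    intro i _
    exact measurable_subtype_coe.comp (measurable_pi_apply _)
  have hXm : ∀ p, Measurable (X p) := by
    intro p
    rw [measurable_pi_iff]
    intro k
    exact hu.meas _
  have hprod : ∀ ω, ∏ i, (u ω (a i) : ℝ) = ∏ p : M, g p (X p ω) := by
    intro ω
    have e1 : ∀ i, (u ω (a i) : ℝ) =
        ∏ p ∈ M with p ∣ a i, (u ω (p ^ ((a i).factorization p)) : ℝ) := by
      intro i
      rw [mult_prod (u ω) (hu.mult ω) (ha i).ne']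
      apply Finset.prod_congr _ fun _ _ => rfl
      ext p
      rw [mem_filter, Nat.mem_primeFactors]
      constructor
      · rintro ⟨h1, h2, h3⟩
        refine ⟨?_, h2⟩
        rw [hM, mem_biUnion]
        exact ⟨i, mem_univ _, Nat.mem_primeFactors.2 ⟨h1, h2, h3⟩⟩
      · rintro ⟨h1, h2⟩
        exact ⟨hMp p h1, h2, (ha i).ne'⟩
    have e2 : ∏ p : M, g p (X p ω) = ∏ p ∈ M,
        ∏ i with p ∣ a i, (u ω (p ^ ((a i).factorization p)) : ℝ) := by
      rw [← Finset.prod_coe_sort M
        (fun p => ∏ i with p ∣ a i, (u ω (p ^ ((a i).factorization p)) : ℝ))]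
      apply Finset.prod_congr rfl
      intro p _
      rw [hg]
      simp only [hX]
      apply Finset.prod_congr rfl
      intro i hi
      rw [mem_filter] at hi
      have : 1 ≤ (a i).factorization p :=
        (hMp p p.2).factorization_pos_of_dvd (ha i).ne' hi.2
      rw [Nat.sub_add_cancel this]
    rw [e2, Finset.prod_congr rfl fun i _ => e1 i]
    simp only [Finset.prod_filter]
    exact Finset.prod_comm
  have hint : ∫ ω, ∏ i, (u ω (a i) : ℝ) ∂P = ∏ p : M, ∫ ω, g p (X p ω) ∂P := by
    rw [← iIndepFun.integral_fun_prod_comp hXind (fun p => (hXm p).aemeasurable)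
      (fun p => (hgm p).aestronglyMeasurable)]
    exact integral_congr_ae (Filter.Eventually.of_forall hprod)
  have hle1 : ∀ p : M, |∫ ω, g p (X p ω) ∂P| ≤ 1 := by
    intro p
    have hb : ∀ ω, ‖g p (X p ω)‖ ≤ 1 := by
      intro ω
      rw [hg, Real.norm_eq_abs]
      simp only [Finset.abs_prod]
      apply Finset.prod_le_one
      · intro i _
        exact abs_nonneg _
      · intro i _
        exact abs_le.2 (X p ω ((a i).factorization p - 1)).2
    have := norm_integral_le_of_norm_le_const (μ := P) (Filter.Eventually.of_forall hb)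
    simpa using this
  have hle2 : ∀ p : M, (p : ℕ) ∈ single a → |∫ ω, g p (X p ω) ∂P| ≤ Real.exp (-wt P u p) := by
    intro p hp
    rw [single, mem_filter] at hp
    obtain ⟨-, i, hi1, hi2⟩ := hp
    have hpM : (p : ℕ) ∈ univ.biUnion fun i => (a i).primeFactors := p.2
    rw [mem_biUnion] at hpM
    obtain ⟨j, -, hj⟩ := hpM
    have hj' := Nat.mem_primeFactors.1 hj
    have hji : j = i := by
      by_contra hne
      exact hi2 j hne hj'.2.1
    subst hji
    have hfil : (univ.filter fun i => (p : ℕ) ∣ a i) = {j} := by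
      ext k
      rw [mem_filter, mem_singleton]
      constructor
      · rintro ⟨-, hk⟩
        by_contra hne
        exact hi2 k hne hk
      · rintro rfl
        exact ⟨mem_univ _, hj'.2.1⟩
    have hfac : (a j).factorization p = 1 := by
      have h1 : 1 ≤ (a j).factorization p :=
        (hMp p p.2).factorization_pos_of_dvd (ha j).ne' hj'.2.1
      have h2 : ¬ 2 ≤ (a j).factorization p := fun h =>
        hi1 ((hj'.1.pow_dvd_iff_le_factorization (ha j).ne').2 h)
      omega
    have hgX : ∀ ω, g p (X p ω) = (u ω p : ℝ) := by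
      intro ω
      simp only [hg, hX]
      rw [hfil, Finset.prod_singleton, hfac]
      simp
    simp only [hgX]
    have : |∫ ω, (u ω p : ℝ) ∂P| = 1 - wt P u p := by
      rw [wt]
      ring
    rw [this]
    have := Real.add_one_le_exp (-wt P u p)
    linarith
  rw [hint, Finset.abs_prod]
  have hs : ∑ p ∈ single a, wt P u p = ∑ p : M, if (p : ℕ) ∈ single a then wt P u p else 0 := by
    rw [Finset.sum_coe_sort M (fun p => if p ∈ single a then wt P u p else 0), ← Finset.sum_filter]
    apply Finset.sum_congr _ fun _ _ => rfl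
    ext p
    rw [mem_filter]
    constructor
    · intro h
      refine ⟨?_, h⟩
      rw [single, mem_filter] at h
      exact h.1
    · rintro ⟨-, h⟩
      exact h
  rw [hs, ← Finset.sum_neg_distrib, Real.exp_sum]
  apply Finset.prod_le_prod
  · intro p _
    exact abs_nonneg _
  · intro p _
    split_ifs with h
    · exact hle2 p h
    · simpa using hle1 p

end Pool.Agent.H86.MT
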