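import Pool.Agent.H89.MT.Targets

/-! # CMB: combinatorics of prime factors -/

open MeasureTheory ProbabilityTheory Filter Topology Finset

namespace Pool.Agent.H86.MT

open Pool.Agent.H89.MT

theorem pf_CMB : T_CMB := by
  classical
  intro w hw0 hw1 H h₀ hh₀ m n hn
  set q0 : Fin m → Fin m × H := fun i => (i, ⟨h₀, hh₀⟩) with hq0
  set a : Fin m × H → ℕ := fun q => n q.1 + (q.2 : ℕ) with ha
  set P : Fin m → Finset ℕ := fun i =>
    (n i + h₀).primeFactors.filter (fun p => ¬ p ^ 2 ∣ n i + h₀) with hP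
  set A : Fin m → Finset ℕ := fun i =>
    (P i).filter (fun p => ∀ q, q ≠ q0 i → ¬ p ∣ a q) with hA
  set B : Fin m → ℕ → Finset ℕ := fun i h =>
    (P i).filter (fun p => p ∣ n i + h) with hB
  set C : Fin m → Fin m → ℕ → Finset ℕ := fun i j h =>
    (n i + h₀).primeFactors ∩ (n j + h).primeFactors with hC
  have hsub : ∀ i, P i ⊆ A i ∪ ((H.erase h₀).biUnion (fun h => B i h) ∪
      (univ.erase i).biUnion (fun j => H.biUnion (fun h => C i j h))) := by
    intro i p hp
    by_cases hpA : p ∈ A i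
    · exact mem_union_left _ hpA
    apply mem_union_right
    have hpA' : ¬ ∀ q, q ≠ q0 i → ¬ p ∣ a q := fun h => hpA (mem_filter.2 ⟨hp, h⟩)
    push Not at hpA'
    obtain ⟨⟨j, h, hh⟩, hne, hdvd⟩ := hpA'
    have hpp := (mem_filter.1 hp).1
    by_cases hji : j = i
    · subst hji
      apply mem_union_left
      rw [mem_biUnion]
      refine ⟨h, mem_erase.2 ⟨?_, hh⟩, mem_filter.2 ⟨hp, hdvd⟩⟩
      intro hcon
      apply hne
      rw [hq0]
      simp only [hcon]
    · apply mem_union_right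
      rw [mem_biUnion]
      refine ⟨j, mem_erase.2 ⟨hji, mem_univ _⟩, ?_⟩
      rw [mem_biUnion]
      refine ⟨h, hh, mem_inter.2 ⟨hpp, ?_⟩⟩
      rw [Nat.mem_primeFactors]
      refine ⟨(Nat.mem_primeFactors.1 hpp).1, hdvd, ?_⟩
      have := hn j
      omega
  have hBcard : ∀ i, ∀ h ∈ H.erase h₀, (B i h).card ≤ h + h₀ := by
    intro i h hh
    have hne : h ≠ h₀ := (mem_erase.1 hh).1
    have : B i h ⊆ Icc 1 (h + h₀) := by
      intro p hp
      rw [hB, mem_filter] at hp
      obtain ⟨hp1, hp2⟩ := hp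
      have hpp := (mem_filter.1 hp1).1
      rw [Nat.mem_primeFactors] at hpp
      obtain ⟨hpr, hp3, -⟩ := hpp
      rw [mem_Icc]
      refine ⟨hpr.one_lt.le, ?_⟩
      rcases lt_or_gt_of_ne hne with hlt | hlt
      · have : p ∣ (n i + h₀) - (n i + h) := Nat.dvd_sub hp3 hp2
        have e : (n i + h₀) - (n i + h) = h₀ - h := by omega
        rw [e] at this
        have := Nat.le_of_dvd (by omega) this
        omega
      · have : p ∣ (n i + h) - (n i + h₀) := Nat.dvd_sub hp2 hp3
        have e : (n i + h) - (n i + h₀) = h - h₀ := by omega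
        rw [e] at this
        have := Nat.le_of_dvd (by omega) this
        omega
    calc (B i h).card ≤ (Icc 1 (h + h₀)).card := card_le_card this
      _ = h + h₀ := by simp
  -- sums of `w` are at most cardinalities
  have hwc : ∀ S : Finset ℕ, ∑ p ∈ S, w p ≤ S.card := by
    intro S
    calc ∑ p ∈ S, w p ≤ ∑ p ∈ S, (1 : ℝ) := sum_le_sum fun p _ => hw1 p
      _ = S.card := by simp
  have hun : ∀ S T : Finset ℕ, ∑ p ∈ S ∪ T, w p ≤ ∑ p ∈ S, w p + ∑ p ∈ T, w p := by
    intro S T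
    rw [← Finset.sum_union_inter]
    have : 0 ≤ ∑ p ∈ S ∩ T, w p := sum_nonneg fun p _ => hw0 p
    linarith
  have hPi : ∀ i, om w (n i + h₀) ≤ ∑ p ∈ A i, w p + (∑ h ∈ H, (h + h₀) : ℕ) +
      ∑ j ∈ univ.erase i, ∑ h ∈ H, (nu (n i + h₀) (n j + h) : ℝ) := by
    intro i
    have e0 : om w (n i + h₀) = ∑ p ∈ P i, w p := rfl
    rw [e0]
    have e1 : ∑ p ∈ P i, w p ≤ ∑ p ∈ A i ∪ ((H.erase h₀).biUnion (fun h => B i h) ∪
      (univ.erase i).biUnion (fun j => H.biUnion (fun h => C i j h))), w p :=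
      sum_le_sum_of_subset_of_nonneg (hsub i) fun p _ _ => hw0 p
    have e2 := hun (A i) ((H.erase h₀).biUnion (fun h => B i h) ∪
      (univ.erase i).biUnion (fun j => H.biUnion (fun h => C i j h)))
    have e3 := hun ((H.erase h₀).biUnion (fun h => B i h))
      ((univ.erase i).biUnion (fun j => H.biUnion (fun h => C i j h)))
    have e4 : ∑ p ∈ (H.erase h₀).biUnion (fun h => B i h), w p ≤ ((∑ h ∈ H, (h + h₀) : ℕ) : ℝ) := by
      refine (hwc _).trans ?_
      have : ((H.erase h₀).biUnion (fun h => B i h)).card ≤ ∑ h ∈ H, (h + h₀) := by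
        calc ((H.erase h₀).biUnion (fun h => B i h)).card
            ≤ ∑ h ∈ H.erase h₀, (B i h).card := card_biUnion_le
          _ ≤ ∑ h ∈ H.erase h₀, (h + h₀) := sum_le_sum (hBcard i)
          _ ≤ ∑ h ∈ H, (h + h₀) := sum_le_sum_of_subset (erase_subset _ _)
      exact_mod_cast this
    have e5 : ∑ p ∈ (univ.erase i).biUnion (fun j => H.biUnion (fun h => C i j h)), w p ≤
        ∑ j ∈ univ.erase i, ∑ h ∈ H, (nu (n i + h₀) (n j + h) : ℝ) := by
      refine (hwc _).trans ?_
      have : ((univ.erase i).biUnion (fun j => H.biUnion (fun h => C i j h))).card ≤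
          ∑ j ∈ univ.erase i, ∑ h ∈ H, nu (n i + h₀) (n j + h) := by
        calc ((univ.erase i).biUnion (fun j => H.biUnion (fun h => C i j h))).card
            ≤ ∑ j ∈ univ.erase i, (H.biUnion (fun h => C i j h)).card := card_biUnion_le
          _ ≤ ∑ j ∈ univ.erase i, ∑ h ∈ H, (C i j h).card :=
            sum_le_sum fun j _ => card_biUnion_le
          _ = ∑ j ∈ univ.erase i, ∑ h ∈ H, nu (n i + h₀) (n j + h) := rfl
      exact_mod_cast this
    linarith
  have hAsum : ∑ i, ∑ p ∈ A i, w p ≤ ∑ p ∈ single a, w p := by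
    rw [← Finset.sum_biUnion]
    · apply sum_le_sum_of_subset_of_nonneg
      · intro p hp
        rw [mem_biUnion] at hp
        obtain ⟨i, -, hp⟩ := hp
        rw [hA, mem_filter] at hp
        obtain ⟨hp1, hp2⟩ := hp
        rw [hP, mem_filter] at hp1
        rw [single, mem_filter]
        refine ⟨?_, q0 i, hp1.2, hp2⟩
        rw [mem_biUnion]
        exact ⟨q0 i, mem_univ _, hp1.1⟩
      · intro p _ _
        exact hw0 p
    · intro i _ j _ hij
      rw [Function.onFun, Finset.disjoint_left]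
      intro p hpi hpj
      rw [hA, mem_filter] at hpi hpj
      have h1 := (mem_filter.1 hpi.1).1
      refine hpj.2 (q0 i) ?_ (Nat.mem_primeFactors.1 h1).2.1
      intro hcon
      exact hij (congrArg Prod.fst hcon)
  calc ∑ i, om w (n i + h₀)
      ≤ ∑ i, (∑ p ∈ A i, w p + (∑ h ∈ H, (h + h₀) : ℕ) +
        ∑ j ∈ univ.erase i, ∑ h ∈ H, (nu (n i + h₀) (n j + h) : ℝ)) :=
        sum_le_sum fun i _ => hPi i
    _ = ∑ i, ∑ p ∈ A i, w p + (m : ℝ) * (∑ h ∈ H, (h + h₀) : ℕ) +
        ∑ i, ∑ j ∈ univ.erase i, ∑ h ∈ H, (nu (n i + h₀) (n j + h) : ℝ) := by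
        rw [sum_add_distrib, sum_add_distrib]
        simp
    _ ≤ _ := by
        have := hAsum
        linarith

end Pool.Agent.H86.MT
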